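import Pool.Agent.WR2.StmtsC

set_option autoImplicit false

namespace Pool.Agent.WR2.H77

open Pool.Agent.WIR Pool.Agent.WR2

theorem od_succ (t b : ℕ) : od (t + 1) b = od t b + if T^[t] b % 2 = 1 then 1 else 0 := by
  unfold od
  rw [Finset.range_add_one, Finset.filter_insert]
  split_ifs
  · rw [Finset.card_insert_of_notMem]
    rw [Finset.mem_filter, Finset.mem_range]
    exact fun h => lt_irrefl _ h.1
  · rfl

theorem od_add (t s b : ℕ) : od (t + s) b = od s b + od t (T^[s] b) := by
  induction t with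
  | zero =>
    rw [zero_add]
    have : od 0 (T^[s] b) = 0 := rfl
    rw [this, add_zero]
  | succ t ih =>
    have e : t + 1 + s = (t + s) + 1 := by omega
    rw [e, od_succ, ih, od_succ, Function.iterate_add_apply, add_assoc]

theorem T_pos {b : ℕ} (hb : 0 < b) : 0 < T b := by
  unfold T
  split_ifs with h
  · omega
  · omega

theorem iter_pos {b : ℕ} (hb : 0 < b) (s : ℕ) : 0 < T^[s] b := by
  induction s with
  | zero => exact hb
  | succ s ih =>
    rw [Function.iterate_succ_apply']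
    exact T_pos ih

theorem cmo (pre : PreStmt) : CmoStmt := by
  obtain ⟨p1, -, -, -⟩ := pre
  intro t s L f a
  unfold PS
  have key : ∀ b, b ∈ Pre (t + s) L a ↔ (0 < b ∧ T^[t] (T^[s] b) = a ∧
      od s b + od t (T^[s] b) = L) := by
    intro b
    rw [p1, od_add, Function.iterate_add_apply]
  have h1 : ∀ b ∈ Pre (t + s) L a, od t (T^[s] b) ∈ Finset.range (L + 1) := by
    intro b hb
    rw [key] at hb
    rw [Finset.mem_range]
    omega
  rw [← Finset.sum_fiberwise_of_maps_to h1]
  refine Finset.sum_congr rfl (fun l hl => ?_)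
  rw [Finset.mem_range] at hl
  have h2 : ∀ b ∈ (Pre (t + s) L a).filter (fun b => od t (T^[s] b) = l),
      T^[s] b ∈ Pre t l a := by
    intro b hb
    rw [Finset.mem_filter, key] at hb
    rw [p1]
    exact ⟨iter_pos hb.1.1 s, hb.1.2.1, hb.2⟩
  rw [← Finset.sum_fiberwise_of_maps_to h2]
  refine Finset.sum_congr rfl (fun m hm => Finset.sum_congr ?_ (fun _ _ => rfl))
  rw [p1] at hm
  ext b
  rw [Finset.mem_filter, Finset.mem_filter, key, p1]
  constructor
  · rintro ⟨⟨⟨g1, g2, g3⟩, g4⟩, g5⟩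
    exact ⟨g1, g5, by omega⟩
  · rintro ⟨g1, g2, g3⟩
    rw [g2]
    exact ⟨⟨⟨g1, hm.2.1, by omega⟩, hm.2.2⟩, rfl⟩

end Pool.Agent.WR2.H77
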